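import Pool.Agent.Helper72_Cut.AsmStmts

set_option autoImplicit false
set_option linter.unusedSectionVars false
set_option linter.unusedSimpArgs false

/-!
# Modules Z5, U1, U2, U3
-/

namespace H72C.H91

open Finset Equiv Pool.Agent.Helper91_CW H72C

/-- The killed kernel is monotone. -/
theorem Kw_mono {H : Type} [Fintype H] [DecidableEq H] {N : ℕ} {w : H → H → ℝ} {q : H → ℝ}
    (hw : ∀ x y, 0 ≤ w x y) (hs : ∀ x, ∑ y, w x y + N * q x ≤ 1) {f g : H → ℝ}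
    (hfg : ∀ x, f x ≤ g x) (x : H) : Kw N w q f x ≤ Kw N w q g x := by
  unfold Kw
  have h1 : (0 : ℝ) ≤ 1 - ∑ y, w x y - N * q x := by linarith [hs x]
  have h2 : ∑ y, w x y * f y ≤ ∑ y, w x y * g y :=
    sum_le_sum fun y _ => mul_le_mul_of_nonneg_left (hfg y) (hw x y)
  have h3 := mul_le_mul_of_nonneg_left (hfg x) h1
  linarith

theorem kw_bounds {H : Type} [Fintype H] [DecidableEq H] {N : ℕ} {w : H → H → ℝ} {q : H → ℝ}
    (hw : ∀ x y, 0 ≤ w x y) (hq : ∀ x, 0 ≤ q x) (hs : ∀ x, ∑ y, w x y + N * q x ≤ 1) (s : ℕ)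
    (x : H) : 0 ≤ kw N w q s x ∧ kw N w q s x ≤ 1 := by
  induction s generalizing x with
  | zero => simp [kw]
  | succ s ih =>
    have e : kw N w q (s + 1) x = Kw N w q (kw N w q s) x := by
      unfold kw
      rw [Function.iterate_succ_apply']
    rw [e]
    constructor
    · have := Kw_mono hw hs (f := fun _ => 0) (g := kw N w q s) (fun y => (ih y).1) x
      simpa [Kw] using this
    · have := Kw_mono hw hs (f := kw N w q s) (g := fun _ => 1) (fun y => (ih y).2) x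
      refine this.trans ?_
      have h1 := hq x
      have h2 : (0 : ℝ) ≤ N := Nat.cast_nonneg N
      simp only [Kw, mul_one]
      nlinarith [mul_nonneg h2 h1]

theorem row_sum (hwts : WTS_stmt) (P : Par) (x : Hx P) :
    ∑ y, wH P x y + (Fintype.card (Fin P.Mn) : ℕ) * qH P x ≤ 1 := by
  obtain ⟨_, _, _, _, _, _, _, _, _, _, _, _, _, _, h, _⟩ := hwts P
  have := h (Sum.inl x)
  rw [Fintype.sum_sum_type] at this
  simpa [wX] using this

theorem kwP_bounds (hwts : WTS_stmt) (P : Par) (s : ℕ) (z : Hx P) :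
    0 ≤ kwP P s z ∧ kwP P s z ≤ 1 := by
  have h := hwts P
  exact kw_bounds h.2.2.2.2.1 h.2.2.2.2.2.2.2.1 (row_sum hwts P) s z

theorem mwP_nonneg (hwts : WTS_stmt) (P : Par) (s : ℕ) : 0 ≤ mwP P s :=
  sum_nonneg fun z _ => (kwP_bounds hwts P s z).1

theorem mwP_diff (hwts : WTS_stmt) (hpair : PAIR_stmt) (P : Par) (s : ℕ) :
    (Fintype.card (Fin P.Mn) : ℝ) * ∑ v, qH P v * kwP P s v = mwP P s - mwP P (s + 1) := by
  have h := hwts P
  exact (hpair (Hx P) (Fintype.card (Fin P.Mn)) (wH P) (qH P) h.2.2.2.2.2.1).2 s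

theorem mwP_succ (hwts : WTS_stmt) (hpair : PAIR_stmt) (P : Par) (s : ℕ) :
    mwP P (s + 1) ≤ mwP P s := by
  have h1 := mwP_diff hwts hpair P s
  have h2 : 0 ≤ (Fintype.card (Fin P.Mn) : ℝ) * ∑ v, qH P v * kwP P s v := by
    apply mul_nonneg (Nat.cast_nonneg _)
    exact sum_nonneg fun v _ => mul_nonneg ((hwts P).2.2.2.2.2.2.2.1 v) (kwP_bounds hwts P s v).1
  linarith

theorem mwP_anti (hwts : WTS_stmt) (hpair : PAIR_stmt) (P : Par) : Antitone (mwP P) :=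
  antitone_nat_of_succ_le (mwP_succ hwts hpair P)

theorem mwP_zero (P : Par) : mwP P 0 = Fintype.card (Hx P) := by
  simp [mwP, mw, kw]

theorem kwP_eq (hlev : LEV_stmt) (P : Par) (s : ℕ) (z : Hx P) :
    kwP P s z = bIt (UP P (gd P z)) (P.m (gd P z)) 0 (fun _ => 1) s (lv P z) := by
  have := hlev P (fun _ _ => 1) s z
  exact this

theorem kwP_le (hlev : LEV_stmt) (hladc : LADC_stmt) {R : ℕ} (hR : 2 ≤ R) (h13 : 10 ^ 13 ≤ R)
    {P : Par} (hP : P = PR R hR) {s : ℕ} (hs : 501 * EE P ≤ s) (z : Hx P) :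
    kwP P s z ≤ 3 ^ Jj R / 3 ^ lv P z := by
  rw [kwP_eq hlev]
  have hz : lv P z ≤ P.m (gd P z) := by
    have := z.2.1.2
    change (z.2.1 : ℕ) ≤ _
    exact Nat.lt_succ_iff.mp this
  exact (hladc R hR h13 P hP).1 (gd P z) s hs (lv P z) hz

theorem m_eq {R : ℕ} {hR : 2 ≤ R} {P : Par} (hP : P = PR R hR) (g : Bool) : P.m g = mt R g := by
  subst hP; rfl

theorem M0_eq {R : ℕ} {hR : 2 ≤ R} {P : Par} (hP : P = PR R hR) : P.M0 = R * Ww R := by
  subst hP; rfl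

theorem Mn_eq {R : ℕ} {hR : 2 ≤ R} {P : Par} (hP : P = PR R hR) : P.Mn = 4 ^ (5 * 4 ^ R) := by
  subst hP; rfl

theorem geom_le (r : ℝ) (hr : 1 < r) (m : ℕ) :
    ∑ j ∈ range (m + 1), r ^ j ≤ r / (r - 1) * r ^ m := by
  rw [geom_sum_eq (by linarith)]
  have h : 0 < r - 1 := by linarith
  rw [div_mul_eq_mul_div, div_le_div_iff_of_pos_right h, pow_succ]
  have : 0 < r ^ m := by positivity
  nlinarith

/-- Z5 -/
theorem mw_thm (hlev : LEV_stmt) (hsum : SUM_stmt) (hpair : PAIR_stmt) (hwts : WTS_stmt)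
    (hrate : RATE_stmt) (hladc : LADC_stmt) : MW_stmt := by
  intro R hR h13 P hP
  refine ⟨mwP_nonneg hwts P, mwP_succ hwts hpair P, mwP_zero P, ?_, ?_⟩
  · intro s hs
    have h1 : mwP P s ≤ ∑ x : Hx P, (3 : ℝ) ^ Jj R / 3 ^ lv P x :=
      sum_le_sum fun z _ => kwP_le hlev hladc hR h13 hP hs z
    have h1' := hsum P (fun _ j => (3 : ℝ) ^ Jj R / 3 ^ j)
    rw [h1'] at h1
    refine h1.trans ?_
    rw [Fintype.sum_bool]
    have h2 : ∀ m : ℕ, ∑ j ∈ range (m + 1), (P.M0 : ℝ) * 4 ^ j * ((3 : ℝ) ^ Jj R / 3 ^ j) ≤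
        4 * P.M0 * 3 ^ Jj R * (4 / 3) ^ m := by
      intro m
      have e : ∀ j ∈ range (m + 1), (P.M0 : ℝ) * 4 ^ j * ((3 : ℝ) ^ Jj R / 3 ^ j) =
          P.M0 * 3 ^ Jj R * (4 / 3) ^ j := by
        intro j _
        rw [div_pow]; ring
      rw [sum_congr rfl e, ← mul_sum]
      have h3 := geom_le (4 / 3) (by norm_num) m
      have h4 : (4 / 3 : ℝ) / (4 / 3 - 1) = 4 := by norm_num
      rw [h4] at h3
      have h5 : (0 : ℝ) ≤ P.M0 * 3 ^ Jj R := by positivity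
      nlinarith [mul_le_mul_of_nonneg_left h3 h5]
    have h3 := h2 (P.m true)
    have h4 := h2 (P.m false)
    rw [m_eq hP] at h3 h4
    rw [m_eq hP, m_eq hP]
    have e3 : (4 * P.M0 * 3 ^ Jj R * (4 / 3) ^ mt R true : ℝ) =
        4 * P.M0 * 4 ^ Jj R * (64 / 27) ^ (4 ^ R) := by
      simp only [mt, if_true]
      rw [pow_add, pow_mul]
      have e5 : ((4 / 3 : ℝ) ^ 3) = 64 / 27 := by norm_num
      rw [e5]
      have e6 : (3 : ℝ) ^ Jj R * (4 / 3) ^ Jj R = 4 ^ Jj R := by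
        rw [← mul_pow]; norm_num
      rw [← e6]; ring
    have e4 : (4 * P.M0 * 3 ^ Jj R * (4 / 3) ^ mt R false : ℝ) = 4 * P.M0 * 4 ^ Jj R := by
      simp only [mt, Bool.false_eq_true, if_false]
      have e6 : (3 : ℝ) ^ Jj R * (4 / 3) ^ Jj R = 4 ^ Jj R := by
        rw [← mul_pow]; norm_num
      rw [← e6]; ring
    rw [e3] at h3
    rw [e4] at h4
    have h6 : (1 : ℝ) ≤ (64 / 27) ^ (4 ^ R) := one_le_pow₀ (by norm_num)
    have h7 : (0 : ℝ) ≤ 4 * P.M0 * 4 ^ Jj R := by positivity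
    nlinarith [mul_le_mul_of_nonneg_left h6 h7]
  · intro s hs
    have hE : (10 : ℝ) ^ 6 ≤ EE P := (hrate R hR h13 P hP).2.2.2.2.2.2.2.2.2.2.2
    obtain ⟨s1, s2, hs12, hs1, hs2⟩ : ∃ s1 s2 : ℕ, s1 + s2 = s ∧ 501 * EE P ≤ s1 ∧
        501 * EE P ≤ s2 := by
      refine ⟨⌈501 * EE P⌉₊, s - ⌈501 * EE P⌉₊, ?_, Nat.le_ceil _, ?_⟩
      · have h1 : (⌈501 * EE P⌉₊ : ℝ) < 501 * EE P + 1 := Nat.ceil_lt_add_one (by positivity)
        have h2 : (⌈501 * EE P⌉₊ : ℝ) < s := by linarith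
        have h3 : ⌈501 * EE P⌉₊ < s := by exact_mod_cast h2
        omega
      · have h1 : (⌈501 * EE P⌉₊ : ℝ) < 501 * EE P + 1 := Nat.ceil_lt_add_one (by positivity)
        have h2 : (⌈501 * EE P⌉₊ : ℝ) < s := by linarith
        have h3 : ⌈501 * EE P⌉₊ < s := by exact_mod_cast h2
        rw [Nat.cast_sub h3.le]
        linarith
    have hsplit : mwP P s = ∑ z, kwP P s1 z * kwP P s2 z := by
      have h := (hpair (Hx P) (Fintype.card (Fin P.Mn)) (wH P) (qH P)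
        (hwts P).2.2.2.2.2.1).1 s1 s2 (fun _ => 1) (fun _ => 1)
      rw [hs12] at h
      have h' : mwP P s = ∑ z, (fun _ : Hx P => (1 : ℝ)) z *
          (Kw (Fintype.card (Fin P.Mn)) (wH P) (qH P))^[s] (fun _ => 1) z := by
        simp [mwP, mw, kw]
      rw [h', ← h]
      rfl
    rw [hsplit]
    have h1 : ∑ z, kwP P s1 z * kwP P s2 z ≤
        ∑ x : Hx P, min 1 ((9 : ℝ) ^ Jj R / 9 ^ lv P x) := by
      refine sum_le_sum fun z _ => ?_
      have b1 := kwP_bounds hwts P s1 z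
      have b2 := kwP_bounds hwts P s2 z
      have c1 := kwP_le hlev hladc hR h13 hP hs1 z
      have c2 := kwP_le hlev hladc hR h13 hP hs2 z
      rw [le_min_iff]
      constructor
      · exact mul_le_one₀ b1.2 b2.1 b2.2
      · calc kwP P s1 z * kwP P s2 z ≤ (3 ^ Jj R / 3 ^ lv P z) * (3 ^ Jj R / 3 ^ lv P z) :=
              mul_le_mul c1 c2 b2.1 (b1.1.trans c1)
          _ = (9 : ℝ) ^ Jj R / 9 ^ lv P z := by
              rw [div_mul_div_comm, ← mul_pow, ← mul_pow]; norm_num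
    have h1' := hsum P (fun _ j => min 1 ((9 : ℝ) ^ Jj R / 9 ^ j))
    rw [h1'] at h1
    refine h1.trans ?_
    rw [Fintype.sum_bool]
    have hlow : ∑ j ∈ range (Jj R + 1), (P.M0 : ℝ) * 4 ^ j * min 1 ((9 : ℝ) ^ Jj R / 9 ^ j) ≤
        4 / 3 * P.M0 * 4 ^ Jj R := by
      have e : ∀ j ∈ range (Jj R + 1), (P.M0 : ℝ) * 4 ^ j * min 1 ((9 : ℝ) ^ Jj R / 9 ^ j) ≤
          P.M0 * 4 ^ j := by
        intro j _
        calc (P.M0 : ℝ) * 4 ^ j * min 1 ((9 : ℝ) ^ Jj R / 9 ^ j) ≤ P.M0 * 4 ^ j * 1 :=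
              mul_le_mul_of_nonneg_left (min_le_left _ _) (by positivity)
          _ = _ := mul_one _
      refine (sum_le_sum e).trans ?_
      rw [← mul_sum]
      have h3 := geom_le 4 (by norm_num) (Jj R)
      have h4 : (4 : ℝ) / (4 - 1) = 4 / 3 := by norm_num
      rw [h4] at h3
      have h5 : (0 : ℝ) ≤ P.M0 := by positivity
      nlinarith [mul_le_mul_of_nonneg_left h3 h5]
    have hhigh : ∀ k : ℕ, ∑ j ∈ range (Jj R + 1 + k),
        (P.M0 : ℝ) * 4 ^ j * min 1 ((9 : ℝ) ^ Jj R / 9 ^ j) ≤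
        4 / 3 * P.M0 * 4 ^ Jj R + P.M0 * 4 ^ Jj R := by
      intro k
      rw [sum_range_add]
      have e : ∀ j ∈ range k, (P.M0 : ℝ) * 4 ^ (Jj R + 1 + j) *
          min 1 ((9 : ℝ) ^ Jj R / 9 ^ (Jj R + 1 + j)) ≤
          P.M0 * 4 ^ Jj R * (4 / 9) * (4 / 9) ^ j := by
        intro j _
        calc (P.M0 : ℝ) * 4 ^ (Jj R + 1 + j) * min 1 ((9 : ℝ) ^ Jj R / 9 ^ (Jj R + 1 + j)) ≤
              P.M0 * 4 ^ (Jj R + 1 + j) * ((9 : ℝ) ^ Jj R / 9 ^ (Jj R + 1 + j)) :=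
              mul_le_mul_of_nonneg_left (min_le_right _ _) (by positivity)
          _ = P.M0 * 4 ^ Jj R * (4 / 9) * (4 / 9) ^ j := by
              rw [div_pow, pow_add, pow_add, pow_add, pow_add]
              field_simp
      have h2 := sum_le_sum e
      rw [← mul_sum] at h2
      have h3 : ∑ j ∈ range k, (4 / 9 : ℝ) ^ j ≤ 9 / 5 := by
        rw [geom_sum_eq (by norm_num)]
        have : (0 : ℝ) ≤ (4 / 9) ^ k := by positivity
        rw [div_le_iff_of_neg (by norm_num)]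
        nlinarith
      have h5 : (0 : ℝ) ≤ P.M0 * 4 ^ Jj R := by positivity
      have h6 : (P.M0 : ℝ) * 4 ^ Jj R * (4 / 9) * ∑ j ∈ range k, (4 / 9 : ℝ) ^ j ≤
          P.M0 * 4 ^ Jj R * (4 / 9) * (9 / 5) :=
        mul_le_mul_of_nonneg_left h3 (by positivity)
      have h7 : (P.M0 : ℝ) * 4 ^ Jj R * (4 / 9) * (9 / 5) ≤ P.M0 * 4 ^ Jj R := by
        nlinarith
      linarith
    have h3 := hhigh (3 * 4 ^ R)
    rw [m_eq hP, m_eq hP]
    have e3 : mt R true + 1 = Jj R + 1 + 3 * 4 ^ R := by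
      simp only [mt, if_true]; ring
    have e4 : mt R false + 1 = Jj R + 1 := by simp [mt]
    rw [e3, e4]
    have h5 : (0 : ℝ) ≤ P.M0 * 4 ^ Jj R := by positivity
    linarith

/-- Lower bound for the first time. -/
theorem T1_ge (P : Par) : 2005.2 * EE P ≤ T1 P := Nat.le_ceil _

/-- U2 -/
theorem u2_thm (hpair : PAIR_stmt) (hwts : WTS_stmt) (hsize : SIZE_stmt)
    (hrate : RATE_stmt) (hmw : MW_stmt) : U2_stmt := by
  intro R hR h13 P hP
  obtain ⟨hnn, hsucc, hzero, hmid, hlate⟩ := hmw R hR h13 P hP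
  have hr := hrate R hR h13 P hP
  have hE : (10 : ℝ) ^ 6 ≤ EE P := hr.2.2.2.2.2.2.2.2.2.2.2
  have hcard : (Fintype.card (Hx P) : ℝ) ≤ P.M0 * 4 ^ (Jj R + 3 * 4 ^ R + 1) := hr.2.2.1
  have hanti := mwP_anti hwts hpair P
  set N : ℝ := (Fintype.card (Fin P.Mn) : ℝ) with hN
  have hNeq : N = 4 ^ (5 * 4 ^ R) := by
    rw [hN, Fintype.card_fin, Mn_eq hP]; push_cast; ring
  have hNpos : 0 < N := by rw [hNeq]; positivity
  set T := T1 P with hT
  have hTge := T1_ge P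
  rw [← hT] at hTge
  have hT1 : 1 ≤ T := by
    have : (1 : ℝ) ≤ T := by linarith
    exact_mod_cast this
  -- middle time
  obtain ⟨h, hh1, hh2⟩ : ∃ h : ℕ, 501 * EE P ≤ h ∧ 2 * h + 1 ≤ T := by
    refine ⟨⌈501 * EE P⌉₊, Nat.le_ceil _, ?_⟩
    have h1 : (⌈501 * EE P⌉₊ : ℝ) < 501 * EE P + 1 := Nat.ceil_lt_add_one (by positivity)
    have h2 : (2 * ⌈501 * EE P⌉₊ + 1 : ℝ) ≤ T := by linarith
    exact_mod_cast h2
  have hm := hmid h hh1
  have hq : ∀ s, ∑ v, qH P v * kwP P s v = N⁻¹ * (mwP P s - mwP P (s + 1)) := by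
    intro s
    rw [← mwP_diff hwts hpair P s, ← hN]
    field_simp
  have hterm : ∀ s ∈ range T, (∑ v, qH P v * kwP P s v) * mwP P (T - 1 - s) ≤
      N⁻¹ * ((mwP P s - mwP P (s + 1)) * mwP P h +
        (if h ≤ s then (mwP P s - mwP P (s + 1)) * mwP P 0 else 0)) := by
    intro s hs
    rw [mem_range] at hs
    rw [hq, mul_assoc]
    apply mul_le_mul_of_nonneg_left _ (by positivity)
    have hd : 0 ≤ mwP P s - mwP P (s + 1) := by linarith [hsucc s]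
    by_cases hsh : h ≤ s
    · rw [if_pos hsh]
      have h1 : mwP P (T - 1 - s) ≤ mwP P 0 := hanti (Nat.zero_le _)
      have h2 := mul_le_mul_of_nonneg_left h1 hd
      have h3 := mul_nonneg hd (hnn h)
      linarith
    · rw [if_neg hsh, add_zero]
      have h1 : mwP P (T - 1 - s) ≤ mwP P h := hanti (by omega)
      exact mul_le_mul_of_nonneg_left h1 hd
  have hsum1 : ∑ s ∈ range T, (mwP P s - mwP P (s + 1)) ≤ mwP P 0 := by
    rw [sum_range_sub']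
    linarith [hnn T]
  have hsum2 : ∑ s ∈ range T, (if h ≤ s then (mwP P s - mwP P (s + 1)) * mwP P 0 else 0) ≤
      mwP P h * mwP P 0 := by
    have hsplit : T = h + (T - h) := by omega
    rw [hsplit, sum_range_add]
    have e1 : ∑ x ∈ range h, (if h ≤ x then (mwP P x - mwP P (x + 1)) * mwP P 0 else 0) = 0 := by
      apply sum_eq_zero
      intro x hx
      rw [mem_range] at hx
      rw [if_neg (by omega)]
    have e2 : ∑ x ∈ range (T - h), (if h ≤ h + x then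
        (mwP P (h + x) - mwP P (h + x + 1)) * mwP P 0 else 0) =
        (∑ x ∈ range (T - h), (mwP P (h + x) - mwP P (h + (x + 1)))) * mwP P 0 := by
      rw [sum_mul]
      apply sum_congr rfl
      intro x _
      rw [if_pos (by omega)]
      ring_nf
    rw [e1, e2, zero_add]
    apply mul_le_mul_of_nonneg_right _ (hnn 0)
    rw [sum_range_sub' (fun x => mwP P (h + x))]
    simp only [add_zero]
    linarith [hnn (h + (T - h))]
  have htot := sum_le_sum hterm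
  rw [← mul_sum, sum_add_distrib, ← sum_mul] at htot
  have hfin : ∑ s ∈ range T, (∑ v, qH P v * kwP P s v) * mwP P (T - 1 - s) ≤
      N⁻¹ * (2 * (mwP P 0 * mwP P h)) := by
    refine htot.trans ?_
    apply mul_le_mul_of_nonneg_left _ (by positivity)
    have := mul_le_mul_of_nonneg_right hsum1 (hnn h)
    nlinarith
  refine (mul_le_mul_of_nonneg_left hfin (by norm_num : (0 : ℝ) ≤ 4)).trans ?_
  rw [hzero]
  -- numerics
  obtain ⟨z1, z2, z3, z4, z5, z6⟩ := hsize R h13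
  have hM0 : (P.M0 : ℝ) ≤ 4 ^ (4 ^ R / 10 ^ 5) := by
    rw [M0_eq hP]; exact_mod_cast z5
  have hJ : (4 : ℝ) ^ Jj R ≤ 4 ^ (4 ^ R / 10 ^ 5) := by exact_mod_cast z6
  set u : ℝ := 4 ^ (4 ^ R / 10 ^ 5) with hu
  have hu0 : 0 < u := by positivity
  have hM00 : (0 : ℝ) ≤ P.M0 := by positivity
  have hJ0 : (0 : ℝ) < 4 ^ Jj R := by positivity
  have hprod : (Fintype.card (Hx P) : ℝ) * mwP P h ≤
      (u * (4 ^ Jj R * 4 ^ (3 * 4 ^ R) * 4)) * (8 * u * 4 ^ Jj R * (64 / 27) ^ (4 ^ R)) := by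
    apply mul_le_mul
    · refine hcard.trans ?_
      rw [pow_add, pow_add, pow_one]
      gcongr
    · refine hm.trans ?_
      gcongr
    · exact hnn h
    · positivity
  have hprod2 : (Fintype.card (Hx P) : ℝ) * mwP P h ≤
      32 * u ^ 4 * (4 ^ (3 * 4 ^ R) * (64 / 27) ^ (4 ^ R)) := by
    refine hprod.trans ?_
    have : (4 : ℝ) ^ Jj R * 4 ^ Jj R ≤ u * u := mul_le_mul hJ hJ hJ0.le hu0.le
    have e : (u * (4 ^ Jj R * 4 ^ (3 * 4 ^ R) * 4)) * (8 * u * 4 ^ Jj R * (64 / 27) ^ (4 ^ R)) =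
      32 * u ^ 2 * (4 ^ Jj R * 4 ^ Jj R) * (4 ^ (3 * 4 ^ R) * (64 / 27) ^ (4 ^ R) : ℝ) := by ring
    rw [e]
    have e2 : 32 * u ^ 4 * (4 ^ (3 * 4 ^ R) * (64 / 27) ^ (4 ^ R) : ℝ) =
      32 * u ^ 2 * (u * u) * (4 ^ (3 * 4 ^ R) * (64 / 27) ^ (4 ^ R) : ℝ) := by ring
    rw [e2]
    gcongr
  have hQ : 4 * (4 ^ R / 10 ^ 5) + 8 ≤ 4 ^ R := by
    have h1 : 10 ^ 5 * (4 ^ R / 10 ^ 5) ≤ 4 ^ R := Nat.mul_div_le _ _
    have h2 : 16 ≤ 4 ^ R := by
      calc 16 = 4 ^ 2 := by norm_num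
        _ ≤ 4 ^ R := Nat.pow_le_pow_right (by norm_num) hR
    generalize 4 ^ R / 10 ^ 5 = d at *
    omega
  have hfrac : (4 : ℝ) ^ (3 * 4 ^ R) * (64 / 27) ^ (4 ^ R) / 4 ^ (5 * 4 ^ R) ≤
      1 / 4 ^ (4 ^ R) := by
    have e1 : (4 : ℝ) ^ (3 * 4 ^ R) = 64 ^ (4 ^ R) := by rw [pow_mul]; norm_num
    have e2 : (4 : ℝ) ^ (5 * 4 ^ R) = 1024 ^ (4 ^ R) := by rw [pow_mul]; norm_num
    rw [e1, e2, ← mul_pow, ← div_pow, ← one_div_pow]
    apply pow_le_pow_left₀ (by norm_num)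
    norm_num
  have hfinal : 4 * (N⁻¹ * (2 * ((Fintype.card (Hx P) : ℝ) * mwP P h))) ≤
      256 * u ^ 4 * (1 / 4 ^ (4 ^ R)) := by
    calc 4 * (N⁻¹ * (2 * ((Fintype.card (Hx P) : ℝ) * mwP P h)))
        ≤ 4 * (N⁻¹ * (2 * (32 * u ^ 4 * (4 ^ (3 * 4 ^ R) * (64 / 27) ^ (4 ^ R))))) := by
          gcongr
      _ = 256 * u ^ 4 * ((4 : ℝ) ^ (3 * 4 ^ R) * (64 / 27) ^ (4 ^ R) / 4 ^ (5 * 4 ^ R)) := by
          rw [hNeq]
          field_simp
          ring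
      _ ≤ 256 * u ^ 4 * (1 / 4 ^ (4 ^ R)) := by gcongr
  refine hfinal.trans ?_
  have hu4 : u ^ 4 = 4 ^ (4 * (4 ^ R / 10 ^ 5)) := by
    rw [hu, ← pow_mul, mul_comm]
  have hbig : (256 * 64 : ℝ) * u ^ 4 ≤ 4 ^ (4 ^ R) * 1 := by
    rw [hu4, mul_one]
    calc (256 * 64 : ℝ) * 4 ^ (4 * (4 ^ R / 10 ^ 5)) = 4 ^ (4 * (4 ^ R / 10 ^ 5) + 7) := by
          rw [pow_add]; norm_num; ring
      _ ≤ 4 ^ (4 ^ R) := pow_le_pow_right₀ (by norm_num) (by omega)
  rw [mul_one_div, div_le_iff₀ (by positivity)]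
  have h0 : (0 : ℝ) < 4 ^ (4 ^ R) := by positivity
  nlinarith

/-- Upper bound for the first time. -/
theorem T1_le (hrate : RATE_stmt) {R : ℕ} {hR : 2 ≤ R} (h13 : 10 ^ 13 ≤ R) {P : Par}
    (hP : P = PR R hR) : (T1 P : ℝ) ≤ nt P * P.M0 := by
  have hE : (10 : ℝ) ^ 6 ≤ EE P := (hrate R hR h13 P hP).2.2.2.2.2.2.2.2.2.2.2
  have h1 : (T1 P : ℝ) < 2005.2 * EE P + 1 := Nat.ceil_lt_add_one (by positivity)
  have h2 : EE P = nt P * P.M0 * (8 / (15 * 401000)) := by unfold EE; ring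
  rw [h2] at h1 hE
  nlinarith

/-- U1 -/
theorem u1_thm (hwts : WTS_stmt) (hrate : RATE_stmt) : U1_stmt := by
  intro R hR h13 P hP
  have hr := hrate R hR h13 P hP
  have hdM1 : (P.Mn : ℝ) ≤ dM P := hr.2.2.2.2.2.1.1
  have hdM2 : (dM P : ℝ) ≤ 2 * P.Mn := hr.2.2.2.2.2.1.2
  have hnt : 0 < nt P := (hwts P).2.2.2.1
  have hMn : (P.Mn : ℝ) = 4 ^ (5 * 4 ^ R) := by rw [Mn_eq hP]; push_cast; ring
  have hMnpos : (0 : ℝ) < P.Mn := by rw [hMn]; positivity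
  rw [Fintype.card_fin]
  have hr1 : 1 / (4 * nt P) ≤ rH P * P.Mn / 2 := by
    have e : rH P * P.Mn / 2 = P.Mn / (2 * nt P * dM P) := by unfold rH; field_simp
    have hd0 : (0 : ℝ) < dM P := by linarith
    rw [e, div_le_div_iff₀ (by positivity) (by positivity)]
    nlinarith
  have hr2 : rH P * P.Mn / 2 ≤ 1 := by
    have h := (hwts P).2.2.2.2.2.2.2.2.2.1
    have hw := (hwts P).2.2.2.2.1
    have hq := (hwts P).2.2.2.2.2.2.2.1
    have hrr := (hwts P).2.2.2.2.2.2.2.2.1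
    unfold totW at h
    rw [Fintype.card_fin] at h
    have h1 : 0 ≤ ∑ x, ∑ y, wH P x y := sum_nonneg fun x _ => sum_nonneg fun y _ => hw x y
    have h2 : 0 ≤ (P.Mn : ℝ) * ∑ v, qH P v := mul_nonneg hMnpos.le (sum_nonneg fun v _ => hq v)
    have h3 : rH P * (P.Mn : ℝ) ^ 2 / 2 ≤ 1 := by linarith
    have h4 : (1 : ℝ) ≤ P.Mn := by rw [hMn]; exact one_le_pow₀ (by norm_num)
    have h5 : rH P * P.Mn ≤ rH P * (P.Mn : ℝ) ^ 2 := by
      apply mul_le_mul_of_nonneg_left _ hrr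
      nlinarith
    linarith
  set x := rH P * P.Mn / 2 with hx
  have hexp : (1 - x) ^ T1 P ≤ Real.exp (-(x * T1 P)) := by
    calc (1 - x) ^ T1 P ≤ (Real.exp (-x)) ^ T1 P := by
          apply pow_le_pow_left₀ (by linarith)
          linarith [Real.add_one_le_exp (-x)]
      _ = Real.exp (-(x * T1 P)) := by
          rw [← Real.exp_nat_mul]; congr 1; ring
  have hT : 2005.2 * EE P ≤ T1 P := T1_ge P
  have hM0 : (P.M0 : ℝ) = R * (401000 * 4 ^ R) := by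
    rw [M0_eq hP]; unfold Ww; push_cast; ring
  have hR' : (10 : ℝ) ^ 13 ≤ R := by exact_mod_cast h13
  set Q : ℝ := 4 ^ R with hQ
  have hQ1 : (16 : ℝ) ≤ Q := by
    rw [hQ]
    calc (16 : ℝ) = 4 ^ 2 := by norm_num
      _ ≤ 4 ^ R := pow_le_pow_right₀ (by norm_num) hR
  have hxT : 200 * R * Q ≤ x * T1 P := by
    have h1 : 1 / (4 * nt P) * (2005.2 * EE P) ≤ x * T1 P :=
      mul_le_mul hr1 hT (by unfold EE; positivity) (by linarith [show 0 < 1 / (4 * nt P) by positivity])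
    refine le_trans ?_ h1
    have h2 : 1 / (4 * nt P) * (2005.2 * EE P) = 2005.2 * 8 / (4 * 15) * (R * Q) := by
      unfold EE
      rw [hM0]
      field_simp
    rw [h2]
    have : 0 ≤ R * Q := by positivity
    nlinarith
  have hexp2 : Real.exp (-(x * T1 P)) ≤ Real.exp (-(200 * R * Q)) :=
    Real.exp_le_exp.mpr (by linarith)
  have hN2 : 2 * (P.Mn : ℝ) ^ 2 ≤ Real.exp (1 + 20 * Q) := by
    have h1 : (P.Mn : ℝ) ^ 2 ≤ Real.exp (20 * Q) := by
      rw [hMn, ← pow_mul]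
      have h2 : (4 : ℝ) ≤ Real.exp 2 := by
        have h21 : (2 : ℝ) ≤ Real.exp 1 := by linarith [Real.add_one_le_exp (1 : ℝ)]
        have h22 : Real.exp 2 = Real.exp 1 * Real.exp 1 := by rw [← Real.exp_add]; norm_num
        rw [h22]; nlinarith
      calc (4 : ℝ) ^ (5 * 4 ^ R * 2) ≤ (Real.exp 2) ^ (5 * 4 ^ R * 2) :=
            pow_le_pow_left₀ (by norm_num) h2 _
        _ = Real.exp (20 * Q) := by
            rw [← Real.exp_nat_mul]; congr 1; push_cast; rw [hQ]; ring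
    have h3 : (2 : ℝ) ≤ Real.exp 1 := by linarith [Real.add_one_le_exp (1 : ℝ)]
    rw [Real.exp_add]
    exact mul_le_mul h3 h1 (by positivity) (by positivity)
  calc 2 * (P.Mn : ℝ) ^ 2 * (1 - x) ^ T1 P
      ≤ Real.exp (1 + 20 * Q) * Real.exp (-(200 * R * Q)) := by
        apply mul_le_mul hN2 (hexp.trans hexp2) _ (by positivity)
        apply pow_nonneg; linarith
    _ = Real.exp (1 + 20 * Q - 200 * R * Q) := by rw [← Real.exp_add]; congr 1
    _ ≤ Real.exp (-19) := by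
        apply Real.exp_le_exp.mpr
        nlinarith
    _ ≤ 1 / 20 := by
        rw [Real.exp_neg, ← one_div]
        apply one_div_le_one_div_of_le (by norm_num)
        linarith [Real.add_one_le_exp (19 : ℝ)]

/-- U3 -/
theorem u3_thm (hsum : SUM_stmt) (hwts : WTS_stmt) (hsize : SIZE_stmt)
    (hrate : RATE_stmt) (hmw : MW_stmt) : U3_stmt := by
  intro R hR h13 P hP
  obtain ⟨hnn, hsucc, hzero, hmid, hlate⟩ := hmw R hR h13 P hP
  have hr := hrate R hR h13 P hP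
  have hcard : (Fintype.card (Hx P) : ℝ) ≤ P.M0 * 4 ^ (Jj R + 3 * 4 ^ R + 1) := hr.2.2.1
  have hdM1 : (P.Mn : ℝ) ≤ dM P := hr.2.2.2.2.2.1.1
  have hdL : ∀ g, (P.Mn : ℝ) ≤ dL P g (P.m g) := fun g => (hr.2.2.2.2.2.2.1 g).1
  have hnt : 0 < nt P := (hwts P).2.2.2.1
  have hanti : Antitone (mwP P) := antitone_nat_of_succ_le hsucc
  have hMn : (P.Mn : ℝ) = 4 ^ (5 * 4 ^ R) := by rw [Mn_eq hP]; push_cast; ring
  have hMnpos : (0 : ℝ) < P.Mn := by rw [hMn]; positivity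
  rw [Fintype.card_fin]
  have hT := T1_le hrate h13 hP
  set C : ℝ := (Fintype.card (Hx P) : ℝ) with hC
  have hC0 : 0 ≤ C := by positivity
  -- the sum of the `m`
  have hs1 : ∑ s ∈ range (T1 P), mwP P (T1 P - 1 - s) ≤ nt P * P.M0 * C := by
    calc ∑ s ∈ range (T1 P), mwP P (T1 P - 1 - s) ≤ ∑ s ∈ range (T1 P), C := by
          apply sum_le_sum
          intro s _
          rw [← hzero]
          exact hanti (Nat.zero_le _)
      _ = T1 P * C := by simp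
      _ ≤ nt P * P.M0 * C := mul_le_mul_of_nonneg_right hT hC0
  -- the sum of the `q`
  have hs2 : ∑ v, qH P v ≤ 4 * (P.M0 * 4 ^ (Jj R + 3 * 4 ^ R)) / (2 * nt P) / P.Mn := by
    have h1 : ∀ v : Hx P, qH P v ≤ if lv P v = P.m (gd P v) then
        (1 / (2 * nt P)) * (2 / P.Mn) else 0 := by
      intro v
      unfold qH
      split_ifs with h
      · apply mul_le_mul_of_nonneg_left _ (by positivity)
        rw [h]
        have e : (2 : ℝ) / P.Mn = 1 / P.Mn + 1 / P.Mn := by ring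
        rw [e]
        apply add_le_add
        · exact one_div_le_one_div_of_le hMnpos (hdL _)
        · exact one_div_le_one_div_of_le hMnpos hdM1
      · exact le_rfl
    refine (sum_le_sum fun v _ => h1 v).trans ?_
    have h2 := hsum P (fun g j => if j = P.m g then (1 / (2 * nt P)) * (2 / (P.Mn : ℝ)) else 0)
    rw [h2, Fintype.sum_bool]
    have h3 : ∀ g : Bool, ∑ j ∈ range (P.m g + 1), (P.M0 : ℝ) * 4 ^ j *
        (if j = P.m g then (1 / (2 * nt P)) * (2 / (P.Mn : ℝ)) else 0) ≤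
        P.M0 * 4 ^ (Jj R + 3 * 4 ^ R) * ((1 / (2 * nt P)) * (2 / (P.Mn : ℝ))) := by
      intro g
      rw [sum_eq_single (P.m g)]
      · rw [if_pos rfl]
        apply mul_le_mul_of_nonneg_right _ (by positivity)
        apply mul_le_mul_of_nonneg_left _ (by positivity)
        apply pow_le_pow_right₀ (by norm_num)
        rw [m_eq hP]
        unfold mt
        split_ifs <;> omega
      · intro j _ hj
        rw [if_neg hj, mul_zero]
      · intro h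
        exact absurd (mem_range.mpr (Nat.lt_succ_self _)) h
    refine (add_le_add (h3 true) (h3 false)).trans (le_of_eq ?_)
    field_simp
    ring
  have hs10 : 0 ≤ ∑ s ∈ range (T1 P), mwP P (T1 P - 1 - s) := sum_nonneg fun s _ => hnn _
  have hs20 : 0 ≤ ∑ v, qH P v := sum_nonneg fun v _ => (hwts P).2.2.2.2.2.2.2.1 v
  obtain ⟨z1, z2, z3, z4, z5, z6⟩ := hsize R h13
  have hM0 : (P.M0 : ℝ) ≤ 4 ^ (4 ^ R / 10 ^ 5) := by
    rw [M0_eq hP]; exact_mod_cast z5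
  have hJ : (4 : ℝ) ^ Jj R ≤ 4 ^ (4 ^ R / 10 ^ 5) := by exact_mod_cast z6
  set u : ℝ := 4 ^ (4 ^ R / 10 ^ 5) with hu
  have hu0 : 0 < u := by positivity
  have hM00 : (0 : ℝ) ≤ P.M0 := by positivity
  have hJ0 : (0 : ℝ) < 4 ^ Jj R := by positivity
  set w : ℝ := 4 ^ (4 ^ R) with hw
  have hw0 : 0 < w := by positivity
  have hw3 : (4 : ℝ) ^ (3 * 4 ^ R) = w ^ 3 := by rw [hw, ← pow_mul, mul_comm]
  have hw5 : (4 : ℝ) ^ (5 * 4 ^ R) = w ^ 5 := by rw [hw, ← pow_mul, mul_comm]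
  have hCle : C ≤ u * (u * w ^ 3 * 4) := by
    refine hcard.trans ?_
    rw [pow_add, pow_add, pow_one, hw3]
    gcongr
  have hA : (P.M0 : ℝ) * 4 ^ (Jj R + 3 * 4 ^ R) ≤ u * (u * w ^ 3) := by
    rw [pow_add, hw3]
    gcongr
  have hMw : (P.Mn : ℝ) = w ^ 5 := by rw [hMn, hw5]
  have hstep : 8 * C / P.Mn * (∑ v, qH P v) * ∑ s ∈ range (T1 P), mwP P (T1 P - 1 - s) ≤
      8 * C / P.Mn * (4 * (P.M0 * 4 ^ (Jj R + 3 * 4 ^ R)) / (2 * nt P) / P.Mn) *
        (nt P * P.M0 * C) := by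
    apply mul_le_mul _ hs1 hs10 (by positivity)
    apply mul_le_mul_of_nonneg_left hs2 (by positivity)
  refine hstep.trans ?_
  have e1 : 8 * C / P.Mn * (4 * (P.M0 * 4 ^ (Jj R + 3 * 4 ^ R)) / (2 * nt P) / P.Mn) *
        (nt P * P.M0 * C) = 16 * (C * C * (P.M0 * 4 ^ (Jj R + 3 * 4 ^ R)) * P.M0) /
          ((P.Mn : ℝ) * P.Mn) := by
    field_simp
    ring
  rw [e1, hMw]
  have e2 : 16 * (C * C * (P.M0 * 4 ^ (Jj R + 3 * 4 ^ R)) * P.M0) ≤
      16 * ((u * (u * w ^ 3 * 4)) * (u * (u * w ^ 3 * 4)) * (u * (u * w ^ 3)) * u) := by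
    gcongr
  have hQ : 7 * (4 ^ R / 10 ^ 5) + 8 ≤ 4 ^ R := by
    have h1 : 10 ^ 5 * (4 ^ R / 10 ^ 5) ≤ 4 ^ R := Nat.mul_div_le _ _
    have h2 : 16 ≤ 4 ^ R := by
      calc 16 = 4 ^ 2 := by norm_num
        _ ≤ 4 ^ R := Nat.pow_le_pow_right (by norm_num) hR
    generalize 4 ^ R / 10 ^ 5 = d at *
    omega
  have hbig : (256 * 64 : ℝ) * u ^ 7 ≤ w := by
    have hu7 : u ^ 7 = 4 ^ (7 * (4 ^ R / 10 ^ 5)) := by rw [hu, ← pow_mul, mul_comm]
    rw [hu7, hw]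
    calc (256 * 64 : ℝ) * 4 ^ (7 * (4 ^ R / 10 ^ 5)) = 4 ^ (7 * (4 ^ R / 10 ^ 5) + 7) := by
          rw [pow_add]; norm_num; ring
      _ ≤ 4 ^ (4 ^ R) := pow_le_pow_right₀ (by norm_num) (by omega)
  calc 16 * (C * C * (P.M0 * 4 ^ (Jj R + 3 * 4 ^ R)) * P.M0) / (w ^ 5 * w ^ 5)
      ≤ 16 * ((u * (u * w ^ 3 * 4)) * (u * (u * w ^ 3 * 4)) * (u * (u * w ^ 3)) * u) /
        (w ^ 5 * w ^ 5) := by gcongr
    _ = 256 * u ^ 7 / w := by field_simp; ring
    _ ≤ 1 / 20 := by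
        rw [div_le_iff₀ hw0]
        nlinarith [pow_pos hu0 7]

end H72C.H91
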